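import Pool.Agent.Lib.CI.Main2

open AlgebraicGeometry CategoryTheory Pool.Agent.Lib.MP_e39d36_ag Pool.Agent.Lib.CI

namespace Pool.Agent.Results.MP_e39d36_ag.CompleteIntersections

/-- The movable cone conjecture for general Calabi-Yau complete intersections of ample divisors in
products of projective spaces, in the mixed case. -/
theorem result (D : Dat) :
    ∃ Q : MvPolynomial D.Co ℂ, Q ≠ 0 ∧ ∀ F : Fin D.m → MvPolynomial D.Hx ℂ, D.Hom F →
      MvPolynomial.eval (fun c : D.Co => MvPolynomial.coeff c.1.2 (F c.1.1)) Q ≠ 0 →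
      ∀ (Y : Scheme.{0}) [IsIntegral Y] [IsLocallyNoetherian Y] (s : Y ⟶ Spec (.of ℂ)) [Smooth s],
        IsProjective s → ∀ x : D.Hx → Y.functionField,
        @Dat.IsCI D Y.functionField _ (algK s) x F Y OX →
        ∃ S : Set (CDiv Y), S.Finite ∧ Covers s (cone S) ∧ ∀ φ L, IsPull s φ L → L ≠ 1 →
          interior (cone S) ∩ L '' interior (cone S) = ∅ :=
  M2.main D

end Pool.Agent.Results.MP_e39d36_ag.CompleteIntersections
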