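import Pool.Agent.Lib.MV.H_ALL

open AlgebraicGeometry CategoryTheory Order Pool.Agent.Lib.MP_e39d36_ag Pool.Agent.Lib.MV

namespace Pool.Agent.Results.MP_e39d36_ag.DelPezzoProducts

/-- The movable cone conjecture for general anticanonical hypersurfaces in products of del Pezzo
surfaces and projective spaces. -/
theorem result (D : Dat) (hD : D.DP) (hF : D.Full) :
    ∃ Q : MvPolynomial (Fin D.m) ℂ, Q ≠ 0 ∧ ∀ a, MvPolynomial.eval a Q ≠ 0 →
      ∀ (Y : Scheme.{0}) [IsIntegral Y] [IsLocallyNoetherian Y] (s : Y ⟶ Spec (.of ℂ)) [Smooth s],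
        IsProjective s → ∀ x : ∀ i, Fin (D.n i + 1) → Y.functionField,
        @Dat.HypA D a Y.functionField _ (algK s) x Y OX →
        ∃ S : Set (CDiv Y), S.Finite ∧ Covers s (cone S) ∧ ∀ φ L, IsPull s φ L → L ≠ 1 →
          interior (cone S) ∩ L '' interior (cone S) = ∅ :=
  G3.main3 D hD hF

end Pool.Agent.Results.MP_e39d36_ag.DelPezzoProducts
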