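import Pool.Agent.Lib.DU.Main

open AlgebraicGeometry CategoryTheory Pool.Agent.Lib.MP_e39d36_ag

namespace Pool.Agent.Results.MP_e39d36_ag.DescentFull

/-- The movable cone conjecture descends along finite etale Galois covers. -/
theorem result {X Y : Scheme.{0}} [IsIntegral X] [IsIntegral Y] [IsLocallyNoetherian X]
    [IsLocallyNoetherian Y] (s : Y ⟶ Spec (.of ℂ)) (π : X ⟶ Y) [IsFinite π] [Etale π]
    [IsDominant π] (hG : IsGaloisCover π) (hY : IsProjective s) (hX : IsProjective (π ≫ s))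
    (nX : ∀ x : X, IsIntegrallyClosed (X.presheaf.stalk x))
    (nY : ∀ y : Y, IsIntegrallyClosed (Y.presheaf.stalk y))
    (hc : ∃ S : Set (CDiv X), S.Finite ∧ Covers (π ≫ s) (cone S)) :
    ∃ S : Set (CDiv Y), S.Finite ∧ Covers s (cone S) ∧ ∀ φ L, IsPull s φ L → L ≠ 1 →
      interior (cone S) ∩ L '' interior (cone S) = ∅ :=
  Pool.Agent.Lib.DU.sch_descent π Pool.Agent.Lib.DU.mainFD Pool.Agent.Lib.DU.mainFC s hG hY hX
    nX nY hc

end Pool.Agent.Results.MP_e39d36_ag.DescentFull
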