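import Pool.Agent.Lib.TF.All

open AlgebraicGeometry CategoryTheory Order Pool.Agent.Lib.MP_e39d36_ag Pool.Agent.Lib.TF

namespace Pool.Agent.Results.MP_e39d36_ag.ToricFano

/-- The movable cone conjecture for very general anticanonical hypersurfaces in smooth toric Fano
varieties of dimension at least four. -/
theorem result (T : Fano) (f : AddMonoidAlgebra ℂ (Fin T.n → ℤ))
    (hs : ∀ u, f.coeff u ≠ 0 → ∀ ρ, -1 ≤ u ⬝ᵥ T.v ρ)
    (hg : AlgebraicIndependent ℚ fun u : {u // ∀ ρ, -1 ≤ u ⬝ᵥ T.v ρ} => f.coeff u)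
    (Y : Scheme.{0}) [IsIntegral Y] [IsLocallyNoetherian Y] (s : Y ⟶ Spec (.of ℂ)) [Smooth s]
    (hY : IsProjective s) (ψ : AddMonoidAlgebra ℂ (Fin T.n → ℤ) →+* Y.functionField)
    (h : @Fano.Hyp T Y.functionField _ ψ (algK s) f Y OX) :
    ∃ S : Set (CDiv Y), S.Finite ∧ Covers s (cone S) ∧ ∀ φ L, IsPull s φ L → L ≠ 1 →
      interior (cone S) ∩ L '' interior (cone S) = ∅ :=
  mainAll T f hs hg Y s hY ψ h

end Pool.Agent.Results.MP_e39d36_ag.ToricFano
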